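import Mathlib

set_option autoImplicit false

open Filter Topology Finset

namespace Pool.Agent.H29.Rearrange

/-- Errors of a greedy procedure tend to zero. -/
lemma greedy_error (e δ : ℕ → ℝ) (he : ∀ n, 0 ≤ e n) (hδ : Tendsto δ atTop (𝓝 0))
    (hstep : ∀ n, e (n + 1) ≤ max (e n - δ n) (δ n))
    (hsum : ∀ C : ℝ, ∃ n, C < ∑ i ∈ range n, δ i) (hpos : ∀ n, 0 ≤ δ n) :
    Tendsto e atTop (𝓝 0) := by
  rw [Metric.tendsto_atTop]
  intro η hη
  have hη2 : 0 < η / 2 := by positivity
  obtain ⟨M, hM⟩ := (Metric.tendsto_atTop.1 hδ) (η / 2) hη2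
  have hM' : ∀ n ≥ M, δ n < η / 2 := by
    intro n hn
    have := hM n hn
    rw [Real.dist_eq, sub_zero] at this
    exact (le_abs_self _).trans_lt this
  -- there is an index beyond `M` with small error
  have hex : ∃ m ≥ M, e m ≤ η / 2 := by
    by_contra hcon
    push Not at hcon
    have hdec : ∀ n, e (M + n) ≤ e M - (∑ i ∈ range n, δ (M + i)) := by
      intro n
      induction n with
      | zero => simp
      | succ n ih =>
        have h1 := hstep (M + n)
        have h2 := hM' (M + n) (by omega)
        have h3 := hcon (M + n + 1) (by omega)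
        rw [sum_range_succ]
        rcases le_max_iff.1 h1 with h | h
        · have : M + (n + 1) = M + n + 1 := by ring
          rw [this]; linarith
        · linarith
    obtain ⟨n, hn⟩ := hsum (e M + ∑ i ∈ range M, δ i)
    have h1 := hdec n
    have h2 : ∑ i ∈ range n, δ i ≤ ∑ i ∈ range (M + n), δ i :=
      sum_le_sum_of_subset_of_nonneg (by intro i; simp; omega) (fun i _ _ => hpos i)
    rw [sum_range_add] at h2
    have h3 := he (M + n)
    linarith
  obtain ⟨m, hmM, hm⟩ := hex
  refine ⟨m, fun n hn => ?_⟩
  rw [Real.dist_eq, sub_zero, abs_of_nonneg (he n)]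
  have hall : ∀ k, e (m + k) ≤ η / 2 := by
    intro k
    induction k with
    | zero => simpa using hm
    | succ k ih =>
      have h1 := hstep (m + k)
      have h2 := hM' (m + k) (by omega)
      rw [show m + (k + 1) = m + k + 1 by ring]
      refine h1.trans (max_le ?_ h2.le)
      linarith [hpos (m + k)]
  obtain ⟨k, rfl⟩ := Nat.exists_eq_add_of_le hn
  linarith [hall k]

/-- Greedy choice of signs. -/
lemma exists_signs (d : ℕ → ℝ) (hd : ∀ n, 0 < d n) (hlim : Tendsto d atTop (𝓝 0))
    (hsum : ∀ C : ℝ, ∃ n, C < ∑ i ∈ range n, d i) (x : ℝ) :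
    ∃ s : ℕ → Bool, Tendsto (fun N => ∑ n ∈ range N, (if s n then d n else -d n)) atTop (𝓝 x) := by
  classical
  let S : ℕ → ℝ := fun n => Nat.rec (motive := fun _ => ℝ) 0
    (fun n a => if a ≤ x then a + d n else a - d n) n
  have hS0 : S 0 = 0 := rfl
  have hS1 : ∀ n : ℕ, S (n + 1) = if S n ≤ x then S n + d n else S n - d n := fun n => rfl
  refine ⟨fun n => decide (S n ≤ x), ?_⟩
  have hSs : ∀ N : ℕ, ∑ n ∈ range N, (if S n ≤ x then d n else -d n) = S N := by
    intro N
    induction N with
    | zero => simp [hS0]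
    | succ N ih =>
      rw [sum_range_succ, ih, hS1]
      by_cases h : S N ≤ x <;> simp [h]
      ring
  simp only [decide_eq_true_eq]
  simp only [hSs]
  have herr : Tendsto (fun n => |S n - x|) atTop (𝓝 0) := by
    apply greedy_error _ d (fun n => abs_nonneg _) hlim _ hsum (fun n => (hd n).le)
    intro n
    rw [hS1, le_max_iff]
    have hdn := hd n
    by_cases h : S n ≤ x
    · rw [if_pos h]
      by_cases h2 : S n + d n ≤ x
      · left
        rw [abs_of_nonpos (by linarith), abs_of_nonpos (by linarith)]
        linarith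
      · right
        rw [abs_of_nonneg (by linarith)]
        linarith
    · rw [if_neg h]
      by_cases h2 : x ≤ S n - d n
      · left
        rw [abs_of_nonneg (by linarith), abs_of_nonneg (by linarith)]
        linarith
      · right
        rw [abs_of_nonpos (by linarith)]
        linarith
  exact tendsto_iff_dist_tendsto_zero.2 (by simpa [Real.dist_eq] using herr)

/-- The bijection of `ℕ` with `ℕ × Bool` attached to a predicate that holds infinitely often
and fails infinitely often. -/
noncomputable def splitEquiv (p : ℕ → Prop) [DecidablePred p]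
    (h1 : (Set.ofPred p).Infinite) (h2 : (Set.ofPred fun n => ¬ p n).Infinite) : ℕ ≃ ℕ × Bool where
  toFun n := if p n then (Nat.count p n, true) else (Nat.count (fun n => ¬ p n) n, false)
  invFun k := if k.2 then Nat.nth p k.1 else Nat.nth (fun n => ¬ p n) k.1
  left_inv n := by
    by_cases h : p n
    · simp [h, Nat.nth_count h]
    · simp [h, Nat.nth_count (p := fun n => ¬ p n) h]
  right_inv := by
    rintro ⟨j, b⟩
    cases b
    · have := Nat.nth_mem_of_infinite h2 j
      simp only [Bool.false_eq_true, if_false]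
      rw [if_neg this, Nat.count_nth_of_infinite h2]
    · have := Nat.nth_mem_of_infinite h1 j
      simp only [if_true]
      rw [if_pos this, Nat.count_nth_of_infinite h1]

/-- Rearrangement of the series `d_0, -d_0, d_1, -d_1, …` with prescribed sum. -/
lemma exists_rearrangement (d : ℕ → ℝ) (hd : ∀ n, 0 < d n) (hlim : Tendsto d atTop (𝓝 0))
    (hsum : ∀ C : ℝ, ∃ n, C < ∑ i ∈ range n, d i) (x : ℝ) :
    ∃ τ : ℕ ≃ ℕ × Bool,
      Tendsto (fun N => ∑ n ∈ range N, (if (τ n).2 then d (τ n).1 else -d (τ n).1)) atTop (𝓝 x) := by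
  classical
  -- the state is (partial sum, number of positives used, number of negatives used)
  let st : ℕ → ℝ × ℕ × ℕ := fun n => Nat.rec (motive := fun _ => ℝ × ℕ × ℕ) (0, 0, 0)
    (fun _ a => if a.1 ≤ x then (a.1 + d a.2.1, a.2.1 + 1, a.2.2)
      else (a.1 - d a.2.2, a.2.1, a.2.2 + 1)) n
  let p : ℕ → Prop := fun n => (st n).1 ≤ x
  have hst0 : st 0 = (0, 0, 0) := rfl
  have hst1 : ∀ n, st (n + 1) = if (st n).1 ≤ x then
      ((st n).1 + d (st n).2.1, (st n).2.1 + 1, (st n).2.2)
      else ((st n).1 - d (st n).2.2, (st n).2.1, (st n).2.2 + 1) := fun n => rfl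
  have hP : ∀ n, (st n).2.1 = Nat.count p n := by
    intro n
    induction n with
    | zero => simp [hst0]
    | succ n ih =>
      rw [hst1, Nat.count_succ]
      by_cases h : (st n).1 ≤ x
      · rw [if_pos h, if_pos (show p n from h)]; simp [ih]
      · rw [if_neg h, if_neg (show ¬ p n from h)]; simp [ih]
  have hQ : ∀ n, (st n).2.2 = Nat.count (fun n => ¬ p n) n := by
    intro n
    induction n with
    | zero => simp [hst0]
    | succ n ih =>
      rw [hst1, Nat.count_succ]
      by_cases h : (st n).1 ≤ x
      · rw [if_pos h, if_neg (show ¬ ¬ p n from not_not.2 h)]; simp [ih]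
      · rw [if_neg h, if_pos (show ¬ p n from h)]; simp [ih]
  -- both infinitely often
  have hpinf : (Set.ofPred p).Infinite := by
    rw [Set.infinite_iff_exists_gt]
    intro N
    by_contra hcon
    push Not at hcon
    have hno : ∀ k, ¬ p (N + 1 + k) := fun k hk => by
      have := hcon _ hk; omega
    have h1 : ∀ k, (st (N + 1 + k)).2.2 = (st (N + 1)).2.2 + k ∧ (st (N + 1 + k)).1 =
        (st (N + 1)).1 - ∑ i ∈ range k, d ((st (N + 1)).2.2 + i) := by
      intro k
      induction k with
      | zero => simp
      | succ k ih =>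
        have h := hno k
        rw [show N + 1 + (k + 1) = (N + 1 + k) + 1 by ring, hst1,
          if_neg (show ¬ (st (N + 1 + k)).1 ≤ x from h)]
        refine ⟨by simp only [ih.1]; ring, ?_⟩
        simp only [ih.2, ih.1, sum_range_succ]
        ring
    obtain ⟨n, hn⟩ := hsum ((st (N + 1)).1 - x + ∑ i ∈ range (st (N + 1)).2.2, d i)
    have h2 : ∑ i ∈ range n, d i ≤ ∑ i ∈ range ((st (N + 1)).2.2 + n), d i :=
      sum_le_sum_of_subset_of_nonneg (by intro i; simp; omega) (fun i _ _ => (hd i).le)
    rw [sum_range_add] at h2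
    have h3 := hno n
    have h4 := (h1 n).2
    simp only [p, not_le] at h3
    linarith
  have hqinf : (Set.ofPred fun n => ¬ p n).Infinite := by
    rw [Set.infinite_iff_exists_gt]
    intro N
    by_contra hcon
    push Not at hcon
    have hno : ∀ k, p (N + 1 + k) := fun k => by
      by_contra hk
      have := hcon _ hk; omega
    have h1 : ∀ k, (st (N + 1 + k)).2.1 = (st (N + 1)).2.1 + k ∧ (st (N + 1 + k)).1 =
        (st (N + 1)).1 + ∑ i ∈ range k, d ((st (N + 1)).2.1 + i) := by
      intro k
      induction k with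
      | zero => simp
      | succ k ih =>
        have h := hno k
        rw [show N + 1 + (k + 1) = (N + 1 + k) + 1 by ring, hst1,
          if_pos (show (st (N + 1 + k)).1 ≤ x from h)]
        refine ⟨by simp only [ih.1]; ring, ?_⟩
        simp only [ih.2, ih.1, sum_range_succ]
        ring
    obtain ⟨n, hn⟩ := hsum (x - (st (N + 1)).1 + ∑ i ∈ range (st (N + 1)).2.1, d i)
    have h2 : ∑ i ∈ range n, d i ≤ ∑ i ∈ range ((st (N + 1)).2.1 + n), d i :=
      sum_le_sum_of_subset_of_nonneg (by intro i; simp; omega) (fun i _ _ => (hd i).le)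
    rw [sum_range_add] at h2
    have h3 := hno n
    have h4 := (h1 n).2
    simp only [p] at h3
    linarith
  set τ := splitEquiv p hpinf hqinf with hτ
  have hτ1 : ∀ n, τ n = if p n then ((st n).2.1, true) else ((st n).2.2, false) := by
    intro n
    rw [hP, hQ]
    rfl
  refine ⟨τ, ?_⟩
  have hsumst : ∀ N, ∑ n ∈ range N, (if (τ n).2 = true then d (τ n).1 else -d (τ n).1) =
      (st N).1 := by
    intro N
    induction N with
    | zero => simp [hst0]
    | succ N ih =>
      rw [sum_range_succ, ih, hst1, hτ1]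
      by_cases h : p N
      · rw [if_pos h, if_pos (show (st N).1 ≤ x from h)]
        simp
      · rw [if_neg h, if_neg (show ¬ (st N).1 ≤ x from h)]
        simp
        ring
  simp only [hsumst]
  -- the used magnitudes
  set δ : ℕ → ℝ := fun n => d (τ n).1 with hδ
  have hδlim : Tendsto δ atTop (𝓝 0) := by
    have h1 : Tendsto (fun k : ℕ × Bool => d k.1) cofinite (𝓝 0) := by
      have h2 : Tendsto (fun k : ℕ × Bool => k.1) cofinite cofinite := by
        apply Filter.Tendsto.cofinite_of_finite_preimage_singleton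
        intro b
        have : (fun k : ℕ × Bool => k.1) ⁻¹' {b} = {b} ×ˢ Set.univ := by
          ext ⟨i, j⟩; simp
        rw [this]
        exact (Set.finite_singleton b).prod Set.finite_univ
      exact (Nat.cofinite_eq_atTop ▸ hlim).comp h2
    have h3 := h1.comp τ.injective.tendsto_cofinite
    rw [Nat.cofinite_eq_atTop] at h3
    exact h3
  have hδsum : ∀ C : ℝ, ∃ n, C < ∑ i ∈ range n, δ i := by
    intro C
    obtain ⟨n, hn⟩ := hsum C
    -- the finite set of positions of the positive terms with index below `n`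
    set F : Finset ℕ := (range n).image (fun j => τ.symm (j, true)) with hF
    obtain ⟨m, hm⟩ := F.exists_nat_subset_range
    refine ⟨m, hn.trans_le ?_⟩
    have hsub : ∑ i ∈ F, δ i ≤ ∑ i ∈ range m, δ i :=
      sum_le_sum_of_subset_of_nonneg hm (fun i _ _ => (hd _).le)
    refine le_trans (le_of_eq ?_) hsub
    rw [hF, sum_image (by
      intro a _ b _ hab
      simpa using hab)]
    simp [hδ]
  have herr : Tendsto (fun n => |(st n).1 - x|) atTop (𝓝 0) := by
    apply greedy_error _ δ (fun n => abs_nonneg _) hδlim _ hδsum (fun n => (hd _).le)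
    intro n
    rw [hst1, le_max_iff]
    have hdn := hd (τ n).1
    simp only [hδ]
    rw [hτ1] at hdn ⊢
    by_cases h : p n
    · rw [if_pos (show (st n).1 ≤ x from h)]
      rw [if_pos h] at hdn ⊢
      have h' : (st n).1 ≤ x := h
      simp only at hdn ⊢
      by_cases h2 : (st n).1 + d (st n).2.1 ≤ x
      · left
        rw [abs_of_nonpos (by linarith), abs_of_nonpos (by linarith)]
        linarith
      · right
        rw [abs_of_nonneg (by linarith)]
        linarith
    · rw [if_neg (show ¬ (st n).1 ≤ x from h)]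
      rw [if_neg h] at hdn ⊢
      have h' : x < (st n).1 := not_le.1 h
      simp only at hdn ⊢
      by_cases h2 : x ≤ (st n).1 - d (st n).2.2
      · left
        rw [abs_of_nonneg (by linarith), abs_of_nonneg (by linarith)]
        linarith
      · right
        rw [abs_of_nonpos (by linarith)]
        linarith
  exact tendsto_iff_dist_tendsto_zero.2 (by simpa [Real.dist_eq] using herr)

/-- Convergence along all residues. -/
lemma tendsto_of_residues {X : Type*} [TopologicalSpace X] (r : ℕ) (hr : 0 < r) (f : ℕ → X)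
    (L : X) (h : ∀ i < r, Tendsto (fun m => f (r * m + i)) atTop (𝓝 L)) :
    Tendsto f atTop (𝓝 L) := by
  intro U hU
  have h1 : ∀ᶠ m in atTop, ∀ i ∈ range r, f (r * m + i) ∈ U := by
    rw [Filter.eventually_all_finset]
    intro i hi
    exact h i (mem_range.1 hi) hU
  obtain ⟨M, hM⟩ := eventually_atTop.1 h1
  rw [Filter.mem_map, mem_atTop_sets]
  refine ⟨r * M, fun n hn => ?_⟩
  have h2 : M ≤ n / r := by
    rw [Nat.le_div_iff_mul_le hr]; linarith [mul_comm r M]
  have h3 := hM (n / r) h2 (n % r) (mem_range.2 (Nat.mod_lt _ hr))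
  rw [Nat.div_add_mod] at h3
  exact h3

/-- A series whose terms tend to zero converges as soon as its partial sums along multiples of
`r` do. -/
lemma tendsto_sum_of_blocks {E : Type*} [NormedAddCommGroup E] (r : ℕ) (hr : 0 < r) (y : ℕ → E)
    (hy : Tendsto y atTop (𝓝 0)) (L : E)
    (h : Tendsto (fun m => ∑ n ∈ range (r * m), y n) atTop (𝓝 L)) :
    Tendsto (fun N => ∑ n ∈ range N, y n) atTop (𝓝 L) := by
  apply tendsto_of_residues r hr
  intro i _
  have h1 : ∀ m, ∑ n ∈ range (r * m + i), y n =
      ∑ n ∈ range (r * m), y n + ∑ j ∈ range i, y (r * m + j) := by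
    intro m
    rw [sum_range_add]
  simp only [h1]
  have h2 : Tendsto (fun m => ∑ j ∈ range i, y (r * m + j)) atTop (𝓝 0) := by
    have : Tendsto (fun m => ∑ j ∈ range i, y (r * m + j)) atTop (𝓝 (∑ _j ∈ range i, (0 : E))) := by
      apply tendsto_finsetSum
      intro j _
      apply hy.comp
      apply tendsto_atTop_mono (f := fun m : ℕ => m) (fun m => ?_) tendsto_id
      nlinarith
    simpa using this
  simpa using h.add h2

end Pool.Agent.H29.Rearrange
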