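import Mathlib
import Pool.Agent.H29.Rearrange

set_option autoImplicit false

/-!
# The planar series: construction

Level `k` consists of `q k` groups of six vectors, in this order:
`(2⁻ᵏ, 1/q k), (2⁻ᵏ, 0), (2⁻ᵏ, 0), (-2⁻ᵏ, 0), (-2⁻ᵏ, -1/q k), (-2⁻ᵏ, 0)`.
-/

open Filter Topology Finset

namespace Pool.Agent.H29.PlanarSeries

/-- The number of groups at level `k`, very rapidly increasing. -/
def q : ℕ → ℕ
  | 0 => 1
  | k + 1 => 2 ^ (k + 6) * q k ^ 2

lemma q_pos (k : ℕ) : 0 < q k := by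
  induction k with
  | zero => simp [q]
  | succ k ih => rw [q]; positivity

lemma q_dvd (k : ℕ) : q k ∣ q (k + 1) := by
  rw [q, sq]
  exact ⟨2 ^ (k + 6) * q k, by ring⟩

lemma q_dvd_le {k l : ℕ} (h : k ≤ l) : q k ∣ q l := by
  induction h with
  | refl => exact dvd_rfl
  | step _ ih => exact ih.trans (q_dvd _)

lemma two_pow_le_q (k : ℕ) : 2 ^ k ≤ q k := by
  cases k with
  | zero => simp [q]
  | succ k =>
    rw [q]
    have h1 := q_pos k
    calc 2 ^ (k + 1) ≤ 2 ^ (k + 6) := Nat.pow_le_pow_right (by norm_num) (by omega)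
      _ = 2 ^ (k + 6) * 1 := by ring
      _ ≤ 2 ^ (k + 6) * q k ^ 2 := by gcongr; exact Nat.one_le_pow _ _ h1

lemma four_pow_le_q_succ (k : ℕ) : 2 ^ (2 * k) ≤ q (k + 1) := by
  rw [q]
  have h1 := two_pow_le_q k
  calc 2 ^ (2 * k) = 1 * (2 ^ k) ^ 2 := by rw [← pow_mul]; ring
    _ ≤ 2 ^ (k + 6) * q k ^ 2 := by
      gcongr
      exact Nat.one_le_two_pow

/-- The first group of level `k`. -/
def B (k : ℕ) : ℕ := ∑ i ∈ range k, q i

lemma B_zero : B 0 = 0 := rfl

lemma B_succ (k : ℕ) : B (k + 1) = B k + q k := by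
  rw [B, sum_range_succ, B]

lemma B_strictMono : StrictMono B :=
  strictMono_nat_of_lt_succ fun k => by rw [B_succ]; have := q_pos k; omega

lemma exists_level (g : ℕ) : ∃ k, g < B (k + 1) :=
  ⟨g, lt_of_lt_of_le (Nat.lt_succ_self g) (B_strictMono.le_apply)⟩

/-- The level of the group `g`. -/
def lev (g : ℕ) : ℕ := Nat.find (exists_level g)

lemma lev_lt (g : ℕ) : g < B (lev g + 1) := Nat.find_spec (exists_level g)

lemma le_lev (g : ℕ) : B (lev g) ≤ g := by
  rcases h : lev g with _ | k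
  · simp [B_zero]
  · have : ¬ g < B (k + 1) := Nat.find_min (exists_level g) (by
      change k < lev g
      omega)
    omega

lemma lev_eq {g k : ℕ} (h1 : B k ≤ g) (h2 : g < B (k + 1)) : lev g = k := by
  have h3 := lev_lt g
  have h4 := le_lev g
  have h5 : B (lev g) < B (k + 1) := by omega
  have h6 : B k < B (lev g + 1) := by omega
  have h7 := B_strictMono.lt_iff_lt.1 h5
  have h8 := B_strictMono.lt_iff_lt.1 h6
  omega

lemma lev_tendsto : Tendsto lev atTop atTop := by
  rw [tendsto_atTop]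
  intro k
  filter_upwards [eventually_ge_atTop (B k)] with g hg
  have h1 := lev_lt g
  have h2 : B k < B (lev g + 1) := by omega
  have h3 := B_strictMono.lt_iff_lt.1 h2
  omega

/-- The Euclidean plane. -/
abbrev E2 : Type := EuclideanSpace ℝ (Fin 2)

/-- First coordinate of the vector of type `t` at level `k`. -/
noncomputable def hor (t k : ℕ) : ℝ := if t < 3 then (1 / 2) ^ k else -(1 / 2) ^ k

/-- Second coordinate of the vector of type `t` at level `k`. -/
noncomputable def ver (t k : ℕ) : ℝ := if t = 0 then 1 / q k else if t = 4 then -(1 / q k) else 0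

/-- The vector of type `t` at level `k`. -/
noncomputable def vec (t k : ℕ) : E2 := !₂[hor t k, ver t k]

/-- The series. -/
noncomputable def ser (n : ℕ) : E2 := vec (n % 6) (lev (n / 6))

lemma ser_apply (g t : ℕ) (ht : t < 6) : ser (6 * g + t) = vec t (lev g) := by
  have h1 : (6 * g + t) % 6 = t := by omega
  have h2 : (6 * g + t) / 6 = g := by omega
  rw [ser, h1, h2]

lemma abs_hor (t k : ℕ) : |hor t k| = (1 / 2) ^ k := by
  unfold hor
  split_ifs
  · exact abs_of_pos (by positivity)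
  · rw [abs_neg]; exact abs_of_pos (by positivity)

lemma abs_ver_le (t k : ℕ) : |ver t k| ≤ 1 / q k := by
  have h : (0 : ℝ) < 1 / q k := by have := q_pos k; positivity
  unfold ver
  split_ifs
  · rw [abs_of_pos h]
  · rw [abs_neg, abs_of_pos h]
  · simp

lemma inv_q_le (k : ℕ) : (1 : ℝ) / q k ≤ (1 / 2) ^ k := by
  rw [one_div_pow]
  have h : (2 : ℝ) ^ k ≤ q k := by exact_mod_cast two_pow_le_q k
  exact one_div_le_one_div_of_le (by positivity) h

lemma norm_vec (t k : ℕ) : ‖vec t k‖ = Real.sqrt (hor t k ^ 2 + ver t k ^ 2) := by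
  rw [EuclideanSpace.norm_eq]
  simp [vec, Fin.sum_univ_two]

lemma norm_vec_ge (t k : ℕ) : (1 / 2) ^ k ≤ ‖vec t k‖ := by
  rw [norm_vec]
  apply Real.le_sqrt_of_sq_le
  rw [← abs_hor t k, sq_abs]
  nlinarith [sq_nonneg (ver t k)]

lemma norm_vec_le (t k : ℕ) : ‖vec t k‖ ≤ 2 * (1 / 2) ^ k := by
  rw [norm_vec]
  apply Real.sqrt_le_iff.2
  refine ⟨by positivity, ?_⟩
  have h1 : hor t k ^ 2 = ((1 / 2) ^ k) ^ 2 := by rw [← abs_hor t k, sq_abs]
  have h2 : ver t k ^ 2 ≤ ((1 / 2) ^ k) ^ 2 := by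
    rw [← sq_abs]
    exact pow_le_pow_left₀ (abs_nonneg _) ((abs_ver_le t k).trans (inv_q_le k)) 2
  nlinarith [sq_nonneg ((1 / 2 : ℝ) ^ k)]

lemma ser_tendsto : Tendsto ser atTop (𝓝 0) := by
  rw [tendsto_zero_iff_norm_tendsto_zero]
  have h1 : Tendsto (fun n : ℕ => 2 * (1 / 2 : ℝ) ^ (lev (n / 6))) atTop (𝓝 0) := by
    have h2 : Tendsto (fun n : ℕ => lev (n / 6)) atTop atTop :=
      lev_tendsto.comp (Nat.tendsto_div_const_atTop (by norm_num))
    have h3 := (tendsto_pow_atTop_nhds_zero_of_lt_one (r := (1 / 2 : ℝ)) (by norm_num)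
      (by norm_num)).comp h2
    simpa using h3.const_mul 2
  exact squeeze_zero (fun n => norm_nonneg _) (fun n => norm_vec_le _ _) h1

/-! ### The two scalar sequences -/

/-- horizontal steps -/
noncomputable def dh (g : ℕ) : ℝ := (1 / 2) ^ lev g

/-- vertical steps -/
noncomputable def dv (g : ℕ) : ℝ := 1 / q (lev g)

lemma dh_pos (g : ℕ) : 0 < dh g := by unfold dh; positivity

lemma dv_pos (g : ℕ) : 0 < dv g := by
  unfold dv; have := q_pos (lev g); positivity

lemma dv_le_dh (g : ℕ) : dv g ≤ dh g := inv_q_le _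

lemma dh_tendsto : Tendsto dh atTop (𝓝 0) :=
  (tendsto_pow_atTop_nhds_zero_of_lt_one (r := (1 / 2 : ℝ)) (by norm_num)
      (by norm_num)).comp lev_tendsto

lemma dv_tendsto : Tendsto dv atTop (𝓝 0) :=
  squeeze_zero (fun g => (dv_pos g).le) dv_le_dh dh_tendsto

lemma sum_dv (k : ℕ) : ∑ g ∈ range (B k), dv g = k := by
  induction k with
  | zero => simp [B_zero]
  | succ k ih =>
    rw [B_succ, sum_range_add, ih]
    have h : ∀ j ∈ range (q k), dv (B k + j) = 1 / q k := by
      intro j hj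
      rw [mem_range] at hj
      rw [dv, lev_eq (k := k) (by omega) (by rw [B_succ]; omega)]
    rw [sum_congr rfl h, sum_const, card_range, nsmul_eq_mul]
    have := q_pos k
    push_cast
    field_simp

lemma dv_unbounded (C : ℝ) : ∃ n, C < ∑ i ∈ range n, dv i := by
  obtain ⟨k, hk⟩ := exists_nat_gt C
  exact ⟨B k, by rw [sum_dv]; exact hk⟩

lemma dh_unbounded (C : ℝ) : ∃ n, C < ∑ i ∈ range n, dh i := by
  obtain ⟨n, hn⟩ := dv_unbounded C
  exact ⟨n, hn.trans_le (sum_le_sum fun i _ => dv_le_dh i)⟩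

lemma not_summable_dh : ¬ Summable dh := by
  intro h
  obtain ⟨n, hn⟩ := dh_unbounded (∑' i, dh i)
  exact absurd (h.sum_le_tsum (range n) (fun i _ => (dh_pos i).le)) (not_le.2 hn)

/-! ### Blocks of six -/

lemma sum_six {M : Type*} [AddCommMonoid M] (f : ℕ → M) (m : ℕ) :
    ∑ n ∈ range (6 * m), f n = ∑ g ∈ range m, (f (6 * g) + f (6 * g + 1) + f (6 * g + 2) +
      f (6 * g + 3) + f (6 * g + 4) + f (6 * g + 5)) := by
  induction m with
  | zero => simp
  | succ m ih =>
    rw [show 6 * (m + 1) = 6 * m + 6 by ring, sum_range_succ _ m, ← ih]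
    simp only [sum_range_succ]
    simp only [add_assoc]

lemma sum_three {M : Type*} [AddCommMonoid M] (f : ℕ → M) (m : ℕ) :
    ∑ n ∈ range (3 * m), f n = ∑ g ∈ range m, (f (3 * g) + f (3 * g + 1) + f (3 * g + 2)) := by
  induction m with
  | zero => simp
  | succ m ih =>
    rw [show 3 * (m + 1) = 3 * m + 3 by ring, sum_range_succ _ m, ← ih]
    simp only [sum_range_succ]
    simp only [add_assoc]

lemma tendsto_vec {f g : ℕ → ℝ} {a b : ℝ} (hf : Tendsto f atTop (𝓝 a))
    (hg : Tendsto g atTop (𝓝 b)) :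
    Tendsto (fun n => (!₂[f n, g n] : E2)) atTop (𝓝 !₂[a, b]) := by
  have h : Continuous (fun p : ℝ × ℝ => (!₂[p.1, p.2] : E2)) := by
    apply (EuclideanSpace.equiv (Fin 2) ℝ).symm.continuous.comp
    apply continuous_pi
    intro i
    fin_cases i
    · exact continuous_fst
    · exact continuous_snd
  exact (h.tendsto (a, b)).comp (hf.prodMk_nhds hg)

lemma sum_vec (s : Finset ℕ) (f g : ℕ → ℝ) :
    ∑ n ∈ s, (!₂[f n, g n] : E2) = !₂[∑ n ∈ s, f n, ∑ n ∈ s, g n] := by
  ext i
  rw [WithLp.ofLp_sum, Finset.sum_apply]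
  fin_cases i <;> simp

lemma hor_0 (k : ℕ) : hor 0 k = (1 / 2) ^ k := by simp [hor]
lemma hor_1 (k : ℕ) : hor 1 k = (1 / 2) ^ k := by simp [hor]
lemma hor_2 (k : ℕ) : hor 2 k = (1 / 2) ^ k := by simp [hor]
lemma hor_3 (k : ℕ) : hor 3 k = -(1 / 2) ^ k := by simp [hor]
lemma hor_4 (k : ℕ) : hor 4 k = -(1 / 2) ^ k := by simp [hor]
lemma hor_5 (k : ℕ) : hor 5 k = -(1 / 2) ^ k := by simp [hor]
lemma ver_0 (k : ℕ) : ver 0 k = 1 / q k := by simp [ver]
lemma ver_1 (k : ℕ) : ver 1 k = 0 := by simp [ver]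
lemma ver_2 (k : ℕ) : ver 2 k = 0 := by simp [ver]
lemma ver_3 (k : ℕ) : ver 3 k = 0 := by simp [ver]
lemma ver_4 (k : ℕ) : ver 4 k = -(1 / q k) := by simp [ver]
lemma ver_5 (k : ℕ) : ver 5 k = 0 := by simp [ver]

/-- A selection of the series: signs `sv`, `sh` choose a vertical and a horizontal step in each
group. -/
noncomputable def sel (sv sh : ℕ → Bool) (n : ℕ) : ℝ :=
  if n % 6 = 0 ∨ n % 6 = 3 then (if sv (n / 6) then 1 else 0)
  else if n % 6 = 1 ∨ n % 6 = 4 then (if sv (n / 6) then 0 else 1)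
  else if n % 6 = 2 then (if sh (n / 6) then 1 else 0)
  else (if sh (n / 6) then 0 else 1)

lemma sel_zero_or_one (sv sh : ℕ → Bool) (n : ℕ) : sel sv sh n = 0 ∨ sel sv sh n = 1 := by
  unfold sel
  split_ifs <;> simp

lemma sel_apply (sv sh : ℕ → Bool) (g t : ℕ) (ht : t < 6) : sel sv sh (6 * g + t) =
    if t = 0 ∨ t = 3 then (if sv g then 1 else 0)
    else if t = 1 ∨ t = 4 then (if sv g then 0 else 1)
    else if t = 2 then (if sh g then 1 else 0)
    else (if sh g then 0 else 1) := by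
  have h1 : (6 * g + t) % 6 = t := by omega
  have h2 : (6 * g + t) / 6 = g := by omega
  rw [sel, h1, h2]

lemma smul_vec (a b c : ℝ) : a • (!₂[b, c] : E2) = !₂[a * b, a * c] := by
  ext i
  fin_cases i <;> simp

lemma add_vec (a b c d : ℝ) : (!₂[a, b] : E2) + !₂[c, d] = !₂[a + c, b + d] := by
  ext i
  fin_cases i <;> simp

lemma sel_group (sv sh : ℕ → Bool) (g : ℕ) :
    sel sv sh (6 * g) • ser (6 * g) + sel sv sh (6 * g + 1) • ser (6 * g + 1) +
      sel sv sh (6 * g + 2) • ser (6 * g + 2) + sel sv sh (6 * g + 3) • ser (6 * g + 3) +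
      sel sv sh (6 * g + 4) • ser (6 * g + 4) + sel sv sh (6 * g + 5) • ser (6 * g + 5) =
    !₂[if sh g then dh g else -dh g, if sv g then dv g else -dv g] := by
  have e0 := ser_apply g 0 (by norm_num)
  have e1 := sel_apply sv sh g 0 (by norm_num)
  rw [add_zero] at e0 e1
  rw [e0, e1, ser_apply g 1 (by norm_num), ser_apply g 2 (by norm_num),
    ser_apply g 3 (by norm_num), ser_apply g 4 (by norm_num), ser_apply g 5 (by norm_num),
    sel_apply sv sh g 1 (by norm_num), sel_apply sv sh g 2 (by norm_num),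
    sel_apply sv sh g 3 (by norm_num), sel_apply sv sh g 4 (by norm_num),
    sel_apply sv sh g 5 (by norm_num)]
  simp only [vec, smul_vec, add_vec, hor_0, hor_1, hor_2, hor_3, hor_4, hor_5, ver_0, ver_1,
    ver_2, ver_3, ver_4, ver_5, dh, dv]
  norm_num
  constructor
  · split_ifs <;> ring
  · split_ifs <;> ring

/-- The achievement set is the whole plane. -/
lemma achieve (a : E2) : ∃ ε : ℕ → ℝ, (∀ n, ε n = 0 ∨ ε n = 1) ∧
    Tendsto (fun N => ∑ n ∈ range N, ε n • ser n) atTop (𝓝 a) := by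
  obtain ⟨sh, hsh⟩ := Rearrange.exists_signs dh dh_pos dh_tendsto dh_unbounded (a 0)
  obtain ⟨sv, hsv⟩ := Rearrange.exists_signs dv dv_pos dv_tendsto dv_unbounded (a 1)
  refine ⟨sel sv sh, sel_zero_or_one sv sh, ?_⟩
  apply Rearrange.tendsto_sum_of_blocks 6 (by norm_num)
  · rw [tendsto_zero_iff_norm_tendsto_zero]
    refine squeeze_zero (fun n => norm_nonneg _) (fun n => ?_)
      (tendsto_zero_iff_norm_tendsto_zero.1 ser_tendsto)
    rw [norm_smul]
    rcases sel_zero_or_one sv sh n with h | h <;> rw [h] <;> simp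
  · simp only [sum_six, sel_group, sum_vec]
    have ha : a = !₂[a 0, a 1] := by
      ext i; fin_cases i <;> simp
    rw [ha]
    exact tendsto_vec hsh hsv

/-- The series converges to zero. -/
lemma ser_hasSum : Tendsto (fun N => ∑ n ∈ range N, ser n) atTop (𝓝 0) := by
  apply Rearrange.tendsto_sum_of_blocks 6 (by norm_num) _ ser_tendsto
  have h : ∀ g, ser (6 * g) + ser (6 * g + 1) + ser (6 * g + 2) +
      ser (6 * g + 3) + ser (6 * g + 4) + ser (6 * g + 5) = 0 := by
    intro g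
    have e0 := ser_apply g 0 (by norm_num)
    rw [add_zero] at e0
    rw [e0, ser_apply g 1 (by norm_num), ser_apply g 2 (by norm_num),
      ser_apply g 3 (by norm_num), ser_apply g 4 (by norm_num), ser_apply g 5 (by norm_num)]
    simp only [vec, add_vec, hor_0, hor_1, hor_2, hor_3, hor_4, hor_5, ver_0, ver_1,
      ver_2, ver_3, ver_4, ver_5]
    ext i
    fin_cases i <;> simp
  simp only [sum_six, h, sum_const_zero]
  exact tendsto_const_nhds

/-- Vectors of a fixed type have non-summable norms. -/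
lemma not_summable_type (t : ℕ) (ht : t < 6) (f : ℕ → ℝ)
    (hf : ∀ g, f (6 * g + t) = ‖ser (6 * g + t)‖) : ¬ Summable f := by
  intro h
  have h1 : Summable (fun g => f (6 * g + t)) :=
    h.comp_injective (i := fun g => 6 * g + t) (fun a b hab => by
      simp only at hab; omega)
  apply not_summable_dh
  refine Summable.of_nonneg_of_le (fun g => (dh_pos g).le) (fun g => ?_) h1
  rw [hf, ser_apply g t ht]
  exact norm_vec_ge t (lev g)

/-! ### Rearrangements with arbitrary sum -/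

/-- Position `(m, r)` of the rearrangement to `(group, type)`. -/
noncomputable def rearr (τv τh : ℕ ≃ ℕ × Bool) : ℕ × Fin 3 → ℕ × Fin 6
  | (m, 0) => ((τv m).1, if (τv m).2 then 0 else 1)
  | (m, 1) => ((τv m).1, if (τv m).2 then 3 else 4)
  | (m, 2) => ((τh m).1, if (τh m).2 then 2 else 5)

/-- The inverse of `rearr`. -/
noncomputable def rearrInv (τv τh : ℕ ≃ ℕ × Bool) : ℕ × Fin 6 → ℕ × Fin 3
  | (g, 0) => (τv.symm (g, true), 0)
  | (g, 1) => (τv.symm (g, false), 0)
  | (g, 2) => (τh.symm (g, true), 2)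
  | (g, 3) => (τv.symm (g, true), 1)
  | (g, 4) => (τv.symm (g, false), 1)
  | (g, 5) => (τh.symm (g, false), 2)

/-- The rearrangement as a bijection. -/
noncomputable def rearrEquiv (τv τh : ℕ ≃ ℕ × Bool) : ℕ × Fin 3 ≃ ℕ × Fin 6 where
  toFun := rearr τv τh
  invFun := rearrInv τv τh
  left_inv := by
    rintro ⟨m, r⟩
    fin_cases r
    · rcases h : τv m with ⟨j, b⟩
      have h' : τv.symm (j, b) = m := by rw [← h]; simp
      cases b <;> simp [rearr, rearrInv, h, h']
    · rcases h : τv m with ⟨j, b⟩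
      have h' : τv.symm (j, b) = m := by rw [← h]; simp
      cases b <;> simp [rearr, rearrInv, h, h']
    · rcases h : τh m with ⟨j, b⟩
      have h' : τh.symm (j, b) = m := by rw [← h]; simp
      cases b <;> simp [rearr, rearrInv, h, h']
  right_inv := by
    rintro ⟨g, t⟩
    fin_cases t <;> simp [rearr, rearrInv]

/-- The permutation of `ℕ`. -/
noncomputable def rearrPerm (τv τh : ℕ ≃ ℕ × Bool) : Equiv.Perm ℕ :=
  (Nat.divModEquiv 3).trans ((rearrEquiv τv τh).trans (Nat.divModEquiv 6).symm)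

lemma rearrPerm_apply (τv τh : ℕ ≃ ℕ × Bool) (m : ℕ) (r : Fin 3) :
    rearrPerm τv τh (3 * m + r) = 6 * (rearr τv τh (m, r)).1 + (rearr τv τh (m, r)).2 := by
  have h : Nat.divModEquiv 3 (3 * m + r) = (m, r) := by
    rw [← Equiv.eq_symm_apply, Nat.divModEquiv_symm_apply]
    ring
  rw [rearrPerm, Equiv.trans_apply, Equiv.trans_apply, h, Nat.divModEquiv_symm_apply]
  change (rearr τv τh (m, r)).1 * 6 + _ = _
  rw [mul_comm]
  rfl

/-- The sum range is the whole plane. -/
lemma rearrange (a : E2) : ∃ σ : Equiv.Perm ℕ,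
    Tendsto (fun N => ∑ n ∈ range N, ser (σ n)) atTop (𝓝 a) := by
  obtain ⟨τh, hτh⟩ := Rearrange.exists_rearrangement dh dh_pos dh_tendsto dh_unbounded (a 0)
  obtain ⟨τv, hτv⟩ := Rearrange.exists_rearrangement dv dv_pos dv_tendsto dv_unbounded (a 1)
  refine ⟨rearrPerm τv τh, ?_⟩
  apply Rearrange.tendsto_sum_of_blocks 3 (by norm_num)
  · have h1 := (rearrPerm τv τh).injective.tendsto_cofinite
    rw [Nat.cofinite_eq_atTop] at h1
    exact ser_tendsto.comp h1
  · have hgroup : ∀ m, ser (rearrPerm τv τh (3 * m)) + ser (rearrPerm τv τh (3 * m + 1)) +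
        ser (rearrPerm τv τh (3 * m + 2)) =
        !₂[if (τh m).2 then dh (τh m).1 else -dh (τh m).1,
          if (τv m).2 then dv (τv m).1 else -dv (τv m).1] := by
      intro m
      have e0 := rearrPerm_apply τv τh m 0
      have e1 := rearrPerm_apply τv τh m 1
      have e2 := rearrPerm_apply τv τh m 2
      simp only [Fin.val_zero, add_zero, Fin.val_one, Fin.val_two, Fin.isValue] at e0 e1 e2
      rw [e0, e1, e2]
      rw [ser_apply _ _ (Fin.is_lt _), ser_apply _ _ (Fin.is_lt _), ser_apply _ _ (Fin.is_lt _)]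
      simp only [rearr]
      rcases h1 : τv m with ⟨j, b⟩
      rcases h2 : τh m with ⟨i, c⟩
      cases b <;> cases c <;>
        simp [vec, add_vec, hor, ver, dh, dv]
    simp only [sum_three, hgroup, sum_vec]
    have ha : a = !₂[a 0, a 1] := by
      ext i; fin_cases i <;> simp
    rw [ha]
    exact tendsto_vec hτh hτv

/-! ### Levy vectors -/

lemma inner_vec (u : E2) (t k : ℕ) : inner ℝ u (vec t k) = u 0 * hor t k + u 1 * ver t k := by
  rw [PiLp.inner_apply]
  simp [vec, Fin.sum_univ_two, mul_comm]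

lemma norm_sq_eq (u : E2) : ‖u‖ ^ 2 = u 0 ^ 2 + u 1 ^ 2 := by
  rw [EuclideanSpace.norm_sq_eq]
  simp [Fin.sum_univ_two]

/-- The first basis vector. -/
noncomputable def e1 : E2 := !₂[1, 0]

lemma norm_e1 : ‖e1‖ = 1 := by
  have h := norm_sq_eq e1
  have h2 : ‖e1‖ ^ 2 = 1 := by rw [h]; simp [e1]
  have h3 := norm_nonneg e1
  nlinarith

lemma norm_vec_of_ver_zero {t k : ℕ} (h : ver t k = 0) : ‖vec t k‖ = (1 / 2) ^ k := by
  rw [norm_vec, h, ← abs_hor t k]
  simp [Real.sqrt_sq_eq_abs]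

lemma exists_small_ver {ε : ℝ} (hε : 0 < ε) :
    ∃ K, ∀ k ≥ K, (1 : ℝ) / q k < ε * (1 / 2) ^ k := by
  obtain ⟨K, hK⟩ := exists_pow_lt_of_lt_one (show (0 : ℝ) < ε / 2 by positivity)
    (show (1 / 2 : ℝ) < 1 by norm_num)
  refine ⟨K + 1, fun k hk => ?_⟩
  obtain ⟨j, rfl⟩ : ∃ j, k = j + 1 := ⟨k - 1, by omega⟩
  have hj : K ≤ j := by omega
  have h1 : ((2 : ℝ) ^ (2 * j)) ≤ q (j + 1) := by exact_mod_cast four_pow_le_q_succ j
  have h2 : (1 : ℝ) / q (j + 1) ≤ 1 / 2 ^ (2 * j) :=
    one_div_le_one_div_of_le (by positivity) h1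
  have h3 : (1 / 2 : ℝ) ^ j ≤ (1 / 2) ^ K :=
    pow_le_pow_of_le_one (by norm_num) (by norm_num) hj
  have h4 : (1 : ℝ) / 2 ^ (2 * j) = (1 / 2) ^ j * (1 / 2) ^ j := by
    rw [two_mul, pow_add, one_div_pow]
    field_simp
  rw [h4] at h2
  have h5 : (0 : ℝ) < (1 / 2) ^ j := by positivity
  calc (1 : ℝ) / q (j + 1) ≤ (1 / 2) ^ j * (1 / 2) ^ j := h2
    _ < (ε / 2) * (1 / 2) ^ j := by
      apply mul_lt_mul_of_pos_right (h3.trans_lt hK) h5
    _ = ε * (1 / 2) ^ (j + 1) := by rw [pow_succ]; ring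

/-- The set of Levy vectors of the series, for the cone condition written out. -/
lemma levy : {u : E2 | ‖u‖ = 1 ∧ ∀ ε : ℝ, 0 < ε → ¬ Summable (fun n =>
    open Classical in if (1 - ε) * ‖u‖ * ‖ser n‖ ≤ inner ℝ u (ser n) then ‖ser n‖ else 0)} =
    {e1, -e1} := by
  classical
  apply Set.Subset.antisymm
  · rintro u ⟨hu, hsum⟩
    by_contra hne
    -- the first coordinate has absolute value less than one
    have hu2 : u 0 ^ 2 + u 1 ^ 2 = 1 := by rw [← norm_sq_eq, hu]; norm_num
    have hlt : |u 0| < 1 := by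
      by_contra hge
      push Not at hge
      have h0 : 1 ≤ u 0 ^ 2 := by rw [← sq_abs]; nlinarith
      have h1 : u 1 = 0 := by nlinarith [sq_nonneg (u 1)]
      have h2 : (u 0 - 1) * (u 0 + 1) = 0 := by
        rw [h1] at hu2
        ring_nf
        linarith
      apply hne
      rcases mul_eq_zero.1 h2 with h | h
      · left
        have h3 : u 0 = 1 := by linarith
        ext i
        fin_cases i <;> simp [e1, h1, h3]
      · right
        have h3 : u 0 = -1 := by linarith
        rw [Set.mem_singleton_iff]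
        ext i
        fin_cases i <;> simp [e1, h1, h3]
    have hu1 : |u 1| ≤ 1 := by
      rw [abs_le]
      constructor <;> nlinarith [sq_nonneg (u 0), sq_nonneg (u 1)]
    set ε : ℝ := (1 - |u 0|) / 2 with hε
    have hε0 : 0 < ε := by rw [hε]; linarith
    apply hsum ε hε0
    obtain ⟨K, hK⟩ := exists_small_ver hε0
    apply summable_of_ne_finset_zero (s := range (6 * B K))
    intro n hn
    rw [mem_range, not_lt] at hn
    rw [if_neg]
    intro hcond
    have hlev : K ≤ lev (n / 6) := by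
      have h1 := lev_lt (n / 6)
      have h2 : B K ≤ n / 6 := by omega
      have h3 := B_strictMono.lt_iff_lt.1 (lt_of_le_of_lt h2 h1)
      omega
    have h1 := hK _ hlev
    rw [ser, inner_vec, hu] at hcond
    set k := lev (n / 6)
    have h2 : u 0 * hor (n % 6) k ≤ |u 0| * (1 / 2) ^ k := by
      rw [← abs_hor (n % 6) k, ← abs_mul]
      exact le_abs_self _
    have h3 : u 1 * ver (n % 6) k ≤ 1 / q k := by
      calc u 1 * ver (n % 6) k ≤ |u 1 * ver (n % 6) k| := le_abs_self _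
        _ = |u 1| * |ver (n % 6) k| := abs_mul _ _
        _ ≤ 1 * (1 / q k) := by
          apply mul_le_mul hu1 (abs_ver_le _ _) (abs_nonneg _) (by norm_num)
        _ = 1 / q k := one_mul _
    have h4 := norm_vec_ge (n % 6) k
    have h5 : 0 < 1 - ε := by rw [hε]; linarith [abs_nonneg (u 0)]
    have h6 : (1 - ε) * (1 / 2) ^ k ≤ (1 - ε) * ‖vec (n % 6) k‖ := by gcongr
    have h7 : (1 - ε) * (1 / 2) ^ k = |u 0| * (1 / 2) ^ k + ε * (1 / 2) ^ k := by
      rw [hε]; ring
    linarith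
  · rintro u (rfl | rfl)
    · refine ⟨norm_e1, fun ε hε => not_summable_type 1 (by norm_num) _ fun g => ?_⟩
      rw [if_pos]
      rw [ser_apply g 1 (by norm_num), inner_vec, norm_e1, norm_vec_of_ver_zero (ver_1 _), ver_1,
        hor_1]
      have : (0 : ℝ) < (1 / 2) ^ lev g := by positivity
      simp only [e1]
      simp
      nlinarith
    · refine ⟨by rw [norm_neg, norm_e1], fun ε hε =>
        not_summable_type 3 (by norm_num) _ fun g => ?_⟩
      rw [if_pos]
      rw [ser_apply g 3 (by norm_num), inner_vec, norm_neg, norm_e1,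
        norm_vec_of_ver_zero (ver_3 _), ver_3, hor_3]
      have : (0 : ℝ) < (1 / 2) ^ lev g := by positivity
      simp only [e1]
      simp
      nlinarith

/-! ### The bad rearrangement -/

/-- Position `6 * B k + (r * q k + i)` of the new order carries the vector of type `r` in the
`i`-th group of level `k`. -/
def badFun (n : ℕ) : ℕ :=
  6 * (B (lev (n / 6)) + (n - 6 * B (lev (n / 6))) % q (lev (n / 6))) +
    (n - 6 * B (lev (n / 6))) / q (lev (n / 6))

/-- The inverse of `badFun`. -/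
def badInv (n : ℕ) : ℕ :=
  6 * B (lev (n / 6)) + ((n % 6) * q (lev (n / 6)) + (n / 6 - B (lev (n / 6))))

lemma lev_div {k n : ℕ} (h1 : 6 * B k ≤ n) (h2 : n < 6 * B (k + 1)) : lev (n / 6) = k :=
  lev_eq (by omega) (by omega)

lemma div_bounds (n : ℕ) : 6 * B (lev (n / 6)) ≤ n ∧ n < 6 * B (lev (n / 6) + 1) := by
  have h1 := lev_lt (n / 6)
  have h2 := le_lev (n / 6)
  omega

lemma badFun_apply (k r i : ℕ) (hr : r < 6) (hi : i < q k) :
    badFun (6 * B k + (r * q k + i)) = 6 * (B k + i) + r := by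
  have hq := q_pos k
  have h0 : r * q k + i < 6 * q k := by nlinarith
  have h1 : lev ((6 * B k + (r * q k + i)) / 6) = k :=
    lev_div (by omega) (by rw [B_succ]; omega)
  unfold badFun
  rw [h1, Nat.add_sub_cancel_left]
  have h2 : (r * q k + i) % q k = i := by
    rw [Nat.add_comm, Nat.add_mul_mod_self_right, Nat.mod_eq_of_lt hi]
  have h3 : (r * q k + i) / q k = r := by
    rw [Nat.add_comm, Nat.add_mul_div_right _ _ hq, Nat.div_eq_of_lt hi, zero_add]
  rw [h2, h3]

lemma badInv_apply (k r i : ℕ) (hr : r < 6) (hi : i < q k) :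
    badInv (6 * (B k + i) + r) = 6 * B k + (r * q k + i) := by
  have h1 : lev ((6 * (B k + i) + r) / 6) = k :=
    lev_div (by omega) (by rw [B_succ]; omega)
  unfold badInv
  rw [h1]
  have h2 : (6 * (B k + i) + r) % 6 = r := by omega
  have h3 : (6 * (B k + i) + r) / 6 - B k = i := by omega
  rw [h2, h3]

/-- The permutation that puts, in each level, the vectors with positive first coordinate
before those with negative first coordinate. -/
def badPerm : Equiv.Perm ℕ where
  toFun := badFun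
  invFun := badInv
  left_inv := by
    intro n
    obtain ⟨h1, h2⟩ := div_bounds n
    set k := lev (n / 6)
    have hq := q_pos k
    obtain ⟨j, hj⟩ := Nat.exists_eq_add_of_le h1
    have hj6 : j < q k * 6 := by rw [B_succ] at h2; omega
    have h3 : j / q k < 6 := Nat.div_lt_of_lt_mul hj6
    have h4 : j % q k < q k := Nat.mod_lt _ hq
    have h5 : j / q k * q k + j % q k = j := by
      rw [mul_comm]; exact Nat.div_add_mod j (q k)
    rw [hj]
    nth_rewrite 1 [← h5]
    rw [badFun_apply k _ _ h3 h4, badInv_apply k _ _ h3 h4, h5]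
  right_inv := by
    intro n
    obtain ⟨h1, h2⟩ := div_bounds n
    set k := lev (n / 6)
    have hq := q_pos k
    have hn : n = 6 * (B k + (n / 6 - B k)) + n % 6 := by omega
    have h3 : n / 6 - B k < q k := by rw [B_succ] at h2; omega
    have h4 : n % 6 < 6 := Nat.mod_lt _ (by norm_num)
    rw [hn]
    rw [badInv_apply k _ _ (by omega) (by omega), badFun_apply k _ _ (by omega) (by omega)]

lemma sqrt_two_gap (q : ℕ) (hq : 0 < q) (p : ℤ) : 1 / (4 * (q : ℝ)) ≤ |q * Real.sqrt 2 - p| := by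
  by_contra hlt
  push Not at hlt
  have hq' : (1 : ℝ) ≤ q := by exact_mod_cast hq
  have h2 : Real.sqrt 2 ^ 2 = 2 := Real.sq_sqrt (by norm_num)
  have hs0 : 0 ≤ Real.sqrt 2 := Real.sqrt_nonneg 2
  have hs : Real.sqrt 2 < 1.5 := by
    nlinarith [Real.sqrt_nonneg 2]
  have hne : (2 * (q : ℤ) ^ 2 - p ^ 2) ≠ 0 := by
    intro h
    have h3 : (2 * (q : ℝ) ^ 2 - (p : ℝ) ^ 2) = 0 := by exact_mod_cast h
    have h4 : (q * Real.sqrt 2 - p) * (q * Real.sqrt 2 + p) = 0 := by
      ring_nf
      rw [h2]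
      linarith
    have hirr := irrational_sqrt_two
    rcases mul_eq_zero.1 h4 with h5 | h5
    · apply hirr
      refine ⟨(p : ℚ) / q, ?_⟩
      push_cast
      field_simp
      linarith
    · apply hirr
      refine ⟨-(p : ℚ) / q, ?_⟩
      push_cast
      field_simp
      linarith
  have h1 : (1 : ℝ) ≤ |2 * (q : ℝ) ^ 2 - (p : ℝ) ^ 2| := by
    have := Int.one_le_abs hne
    exact_mod_cast this
  have h5 : |2 * (q : ℝ) ^ 2 - (p : ℝ) ^ 2| = |q * Real.sqrt 2 - p| * |q * Real.sqrt 2 + p| := by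
    rw [← abs_mul]
    congr 1
    ring_nf
    rw [h2]
  have h6 : 1 / (4 * (q : ℝ)) ≤ 1 / 4 := by
    apply one_div_le_one_div_of_le (by norm_num); linarith
  have h7 : |q * Real.sqrt 2 + p| ≤ 2 * (q * Real.sqrt 2) + 1 / 4 := by
    have h8 := abs_lt.1 hlt
    have h9 : 0 ≤ q * Real.sqrt 2 := by positivity
    rw [abs_le]
    constructor
    · nlinarith [h8.1, h8.2]
    · nlinarith [h8.1, h8.2]
  have h10 : |q * Real.sqrt 2 + p| < 4 * q := by nlinarith
  have h11 : |q * Real.sqrt 2 - p| * |q * Real.sqrt 2 + p| < 1 := by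
    have h12 : 0 ≤ |q * Real.sqrt 2 - p| := abs_nonneg _
    have h13 : 0 ≤ |q * Real.sqrt 2 + p| := abs_nonneg _
    calc |q * Real.sqrt 2 - p| * |q * Real.sqrt 2 + p| ≤
        |q * Real.sqrt 2 - p| * (4 * q) := by gcongr
      _ < 1 / (4 * (q : ℝ)) * (4 * q) := by
        apply mul_lt_mul_of_pos_right hlt (by positivity)
      _ = 1 := by field_simp
  linarith

/-- bound for the vertical displacement inside level `k` -/
noncomputable def tb (k : ℕ) : ℝ := 2 ^ (k + 1) / q k

lemma tb_succ (k : ℕ) : tb (k + 1) = 1 / (16 * (q k : ℝ) ^ 2) := by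
  have h := q_pos k
  unfold tb
  rw [q]
  push_cast
  have h2 : (2 : ℝ) ^ (k + 6) = 16 * 2 ^ (k + 1 + 1) := by
    rw [show k + 6 = (k + 1 + 1) + 4 by ring, pow_add]; norm_num; ring
  rw [h2]
  field_simp

lemma tb_halves (k : ℕ) : 2 * tb (k + 1) ≤ tb k := by
  rw [tb_succ, tb]
  have h : (1 : ℝ) ≤ q k := by exact_mod_cast q_pos k
  have h2 : (1 : ℝ) ≤ 2 ^ (k + 1) := one_le_pow₀ (by norm_num)
  rw [← sub_nonneg]
  have : (2 : ℝ) ^ (k + 1) / q k - 2 * (1 / (16 * (q k : ℝ) ^ 2)) =
      (8 * 2 ^ (k + 1) * q k - 1) / (8 * (q k : ℝ) ^ 2) := by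
    field_simp
    ring
  rw [this]
  apply div_nonneg _ (by positivity)
  nlinarith

/-- **No subseries of the bad rearrangement has a sum with second coordinate `√2`.** -/
lemma bad (ε : ℕ → ℝ) (hε : ∀ n, ε n = 0 ∨ ε n = 1) (a : E2)
    (ha : Tendsto (fun N => ∑ n ∈ range N, ε n • ser (badPerm n)) atTop (𝓝 a)) :
    a 1 ≠ Real.sqrt 2 := by
  intro hsqrt
  have hε0 : ∀ n, 0 ≤ ε n := fun n => by rcases hε n with h | h <;> simp [h]
  -- coordinates
  set f0 : ℕ → ℝ := fun N => ∑ n ∈ range N, ε n * ser (badPerm n) 0 with hf0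
  set f1 : ℕ → ℝ := fun N => ∑ n ∈ range N, ε n * ser (badPerm n) 1 with hf1
  have hcoord : ∀ i : Fin 2, Tendsto (fun N => ∑ n ∈ range N, ε n * ser (badPerm n) i) atTop
      (𝓝 (a i)) := by
    intro i
    have h1 : Tendsto (fun x : E2 => x i) (𝓝 a) (𝓝 (a i)) := by
      apply Continuous.tendsto
      fun_prop
    have h2 := h1.comp ha
    refine h2.congr fun N => ?_
    simp only [Function.comp_apply]
    rw [WithLp.ofLp_sum, Finset.sum_apply]
    rfl
  have h0 : Tendsto f0 atTop (𝓝 (a 0)) := hcoord 0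
  have h1 : Tendsto f1 atTop (𝓝 (a 1)) := hcoord 1
  -- values of the rearranged series
  have hval : ∀ k r i, r < 6 → i < q k →
      ser (badPerm (6 * B k + (r * q k + i))) = vec r k := by
    intro k r i hr hi
    have : badPerm (6 * B k + (r * q k + i)) = 6 * (B k + i) + r := badFun_apply k r i hr hi
    rw [this, ser_apply _ _ hr, lev_eq (k := k) (by omega) (by rw [B_succ]; omega)]
  have hval' : ∀ k j, j < 6 * q k → ser (badPerm (6 * B k + j)) = vec (j / q k) k := by
    intro k j hj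
    have hq := q_pos k
    have h3 : j / q k < 6 := Nat.div_lt_of_lt_mul (by omega)
    have h4 : j % q k < q k := Nat.mod_lt _ hq
    have h5 : j / q k * q k + j % q k = j := by
      rw [mul_comm]; exact Nat.div_add_mod j (q k)
    have := hval k (j / q k) (j % q k) h3 h4
    rwa [h5] at this
  have hvec0 : ∀ t k, (vec t k) 0 = hor t k := fun t k => by simp [vec]
  have hvec1 : ∀ t k, (vec t k) 1 = ver t k := fun t k => by simp [vec]
  -- block sums
  have hblock0a : ∀ k, f0 (6 * B k + 3 * q k) - f0 (6 * B k) =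
      ∑ j ∈ range (3 * q k), ε (6 * B k + j) * (1 / 2) ^ k := by
    intro k
    simp only [hf0]
    rw [sum_range_add, add_sub_cancel_left]
    refine sum_congr rfl fun j hj => ?_
    rw [mem_range] at hj
    have hq := q_pos k
    rw [hval' k j (by omega), hvec0, hor, if_pos (Nat.div_lt_of_lt_mul (by omega))]
  have hblock0b : ∀ k, f0 (6 * B k + 3 * q k) - f0 (6 * B (k + 1)) =
      ∑ j ∈ range (3 * q k), ε (6 * B k + (3 * q k + j)) * (1 / 2) ^ k := by
    intro k
    simp only [hf0]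
    rw [show 6 * B (k + 1) = 6 * B k + 3 * q k + 3 * q k by rw [B_succ]; ring]
    rw [sum_range_add _ (6 * B k + 3 * q k) (3 * q k), sub_add_cancel_left, ← sum_neg_distrib]
    refine sum_congr rfl fun j hj => ?_
    rw [mem_range] at hj
    have hq := q_pos k
    rw [add_assoc, hval' k _ (by omega), hvec0, hor, if_neg]
    · ring
    · rw [not_lt, Nat.le_div_iff_mul_le hq]
      omega
  have hblock1 : ∀ k, f1 (6 * B (k + 1)) - f1 (6 * B k) =
      ∑ j ∈ range (3 * q k), ε (6 * B k + j) * ver (j / q k) k +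
      ∑ j ∈ range (3 * q k), ε (6 * B k + (3 * q k + j)) * ver ((3 * q k + j) / q k) k := by
    intro k
    simp only [hf1]
    rw [show 6 * B (k + 1) = 6 * B k + (3 * q k + 3 * q k) by rw [B_succ]; ring]
    rw [sum_range_add, add_sub_cancel_left, sum_range_add]
    congr 1
    · refine sum_congr rfl fun j hj => ?_
      rw [mem_range] at hj
      rw [hval' k j (by omega), hvec1]
    · refine sum_congr rfl fun j hj => ?_
      rw [mem_range] at hj
      rw [hval' k _ (by omega), hvec1]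
  -- integrality
  have hint : ∀ k, ∃ p : ℤ, f1 (6 * B (k + 1)) = p / q k := by
    have hstep : ∀ k, ∃ m : ℤ, f1 (6 * B (k + 1)) - f1 (6 * B k) = m / q k := by
      intro k
      have hterm : ∀ n t, ∃ m : ℤ, ε n * ver t k = m / q k := by
        intro n t
        rcases hε n with h | h
        · exact ⟨0, by rw [h]; simp⟩
        · rw [h, one_mul]
          unfold ver
          split_ifs
          · exact ⟨1, by simp⟩
          · exact ⟨-1, by push_cast; ring⟩
          · exact ⟨0, by simp⟩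
      have hsum : ∀ (F : ℕ → ℝ) (s : Finset ℕ), (∀ j, ∃ m : ℤ, F j = m / q k) →
          ∃ m : ℤ, ∑ j ∈ s, F j = m / q k := by
        intro F s hF
        choose m hm using hF
        refine ⟨∑ j ∈ s, m j, ?_⟩
        push_cast
        rw [sum_div]
        exact sum_congr rfl fun j _ => hm j
      rw [hblock1]
      obtain ⟨m1, hm1⟩ := hsum (fun j => ε (6 * B k + j) * ver (j / q k) k) (range (3 * q k))
        (fun j => hterm _ _)
      obtain ⟨m2, hm2⟩ := hsum (fun j => ε (6 * B k + (3 * q k + j)) * ver ((3 * q k + j) / q k) k)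
        (range (3 * q k)) (fun j => hterm _ _)
      refine ⟨m1 + m2, ?_⟩
      rw [hm1, hm2]
      push_cast
      ring
    intro k
    induction k with
    | zero =>
      obtain ⟨m, hm⟩ := hstep 0
      refine ⟨m, ?_⟩
      have : f1 (6 * B 0) = 0 := by simp [hf1, B_zero]
      rw [this, sub_zero] at hm
      exact hm
    | succ k ih =>
      obtain ⟨p, hp⟩ := ih
      obtain ⟨m, hm⟩ := hstep (k + 1)
      obtain ⟨c, hc⟩ := q_dvd k
      refine ⟨p * c + m, ?_⟩
      have hq1 : (0 : ℝ) < q k := by exact_mod_cast q_pos k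
      have hq2 : (0 : ℝ) < q (k + 1) := by exact_mod_cast q_pos (k + 1)
      have hc' : (q (k + 1) : ℝ) = q k * c := by exact_mod_cast hc
      have hc0 : (c : ℝ) ≠ 0 := by
        intro h
        rw [h, mul_zero] at hc'
        exact hq2.ne' hc'
      have e1 : f1 (6 * B (k + 1 + 1)) = f1 (6 * B (k + 1)) + m / q (k + 1) := by linarith
      rw [e1, hp, hc']
      push_cast
      field_simp
  -- smallness of blocks for large levels
  have hB : Tendsto B atTop atTop := B_strictMono.tendsto_atTop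
  have h6B : Tendsto (fun k => 6 * B k) atTop atTop :=
    tendsto_atTop_mono (fun k => by omega) hB
  have h6B' : Tendsto (fun k => 6 * B (k + 1)) atTop atTop :=
    h6B.comp (tendsto_add_atTop_nat 1)
  have h6Bm : Tendsto (fun k => 6 * B k + 3 * q k) atTop atTop :=
    tendsto_atTop_mono (fun k => by omega) hB
  have hlim1 : Tendsto (fun k => f0 (6 * B k + 3 * q k) - f0 (6 * B k)) atTop (𝓝 0) := by
    have := (h0.comp h6Bm).sub (h0.comp h6B)
    simpa using this
  have hlim2 : Tendsto (fun k => f0 (6 * B k + 3 * q k) - f0 (6 * B (k + 1))) atTop (𝓝 0) := by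
    have := (h0.comp h6Bm).sub (h0.comp h6B')
    simpa using this
  have hev : ∀ᶠ k in atTop, f0 (6 * B k + 3 * q k) - f0 (6 * B k) ≤ 1 ∧
      f0 (6 * B k + 3 * q k) - f0 (6 * B (k + 1)) ≤ 1 :=
    (hlim1.eventually_le_const (by norm_num)).and (hlim2.eventually_le_const (by norm_num))
  obtain ⟨k0, hk0⟩ := eventually_atTop.1 hev
  have hsmall : ∀ k ≥ k0, |f1 (6 * B (k + 1)) - f1 (6 * B k)| ≤ tb k := by
    intro k hk
    obtain ⟨hs1, hs2⟩ := hk0 k hk
    rw [hblock0a] at hs1
    rw [hblock0b] at hs2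
    rw [hblock1]
    have hqpos : (0 : ℝ) < q k := by exact_mod_cast q_pos k
    have hhalf : ∀ (η : ℕ → ℝ) (t : ℕ → ℕ), (∀ j, 0 ≤ η j) →
        ∑ j ∈ range (3 * q k), η j * (1 / 2) ^ k ≤ 1 →
        |∑ j ∈ range (3 * q k), η j * ver (t j) k| ≤ 2 ^ k / q k := by
      intro η t hη hsum
      calc |∑ j ∈ range (3 * q k), η j * ver (t j) k|
          ≤ ∑ j ∈ range (3 * q k), |η j * ver (t j) k| := abs_sum_le_sum_abs _ _
        _ ≤ ∑ j ∈ range (3 * q k), (2 ^ k / q k) * (η j * (1 / 2) ^ k) := by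
          refine sum_le_sum fun j _ => ?_
          rw [abs_mul, abs_of_nonneg (hη j)]
          have h3 : (2 : ℝ) ^ k / q k * (η j * (1 / 2) ^ k) = η j * (1 / q k) := by
            rw [one_div_pow]
            field_simp
          rw [h3]
          exact mul_le_mul_of_nonneg_left (abs_ver_le _ _) (hη j)
        _ = (2 ^ k / q k) * ∑ j ∈ range (3 * q k), η j * (1 / 2) ^ k := by rw [mul_sum]
        _ ≤ (2 ^ k / q k) * 1 := by gcongr
        _ = 2 ^ k / q k := mul_one _
    have b1 := hhalf (fun j => ε (6 * B k + j)) (fun j => j / q k) (fun j => hε0 _) hs1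
    have b2 := hhalf (fun j => ε (6 * B k + (3 * q k + j))) (fun j => (3 * q k + j) / q k)
      (fun j => hε0 _) hs2
    refine (abs_add_le _ _).trans ((add_le_add b1 b2).trans (le_of_eq ?_))
    rw [tb, pow_succ]
    ring
  -- tail estimate
  have htail : ∀ L, |f1 (6 * B (k0 + 1 + L)) - f1 (6 * B (k0 + 1))| ≤
      2 * tb (k0 + 1) - 2 * tb (k0 + 1 + L) := by
    intro L
    induction L with
    | zero => simp
    | succ L ih =>
      have hs := hsmall (k0 + 1 + L) (by omega)
      have hh := tb_halves (k0 + 1 + L)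
      rw [show k0 + 1 + (L + 1) = k0 + 1 + L + 1 by ring]
      have htri : |f1 (6 * B (k0 + 1 + L + 1)) - f1 (6 * B (k0 + 1))| ≤
          |f1 (6 * B (k0 + 1 + L + 1)) - f1 (6 * B (k0 + 1 + L))| +
          |f1 (6 * B (k0 + 1 + L)) - f1 (6 * B (k0 + 1))| := abs_sub_le _ _ _
      linarith
  have htb0 : ∀ k, 0 ≤ tb k := fun k => by unfold tb; positivity
  have hlimit : |a 1 - f1 (6 * B (k0 + 1))| ≤ 2 * tb (k0 + 1) := by
    have hshift : Tendsto (fun L => 6 * B (k0 + 1 + L)) atTop atTop := by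
      have h2 : Tendsto (fun L => k0 + 1 + L) atTop atTop :=
        tendsto_atTop_mono (fun L => by simp only [id]; omega) tendsto_id
      exact h6B.comp h2
    have h3 : Tendsto (fun L => |f1 (6 * B (k0 + 1 + L)) - f1 (6 * B (k0 + 1))|) atTop
        (𝓝 |a 1 - f1 (6 * B (k0 + 1))|) :=
      ((h1.comp hshift).sub_const _).abs
    exact le_of_tendsto' h3 (fun L => (htail L).trans (by linarith [htb0 (k0 + 1 + L)]))
  obtain ⟨p, hp⟩ := hint k0
  rw [hp, hsqrt, tb_succ] at hlimit
  have hqpos : (0 : ℝ) < q k0 := by exact_mod_cast q_pos k0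
  have hgap := sqrt_two_gap (q k0) (q_pos k0) p
  have e2 : |(q k0 : ℝ) * Real.sqrt 2 - p| = q k0 * |Real.sqrt 2 - p / q k0| := by
    rw [← abs_of_pos hqpos, ← abs_mul, abs_of_pos hqpos]
    congr 1
    field_simp
  rw [e2] at hgap
  have h5 : (q k0 : ℝ) * |Real.sqrt 2 - p / q k0| ≤ q k0 * (2 * (1 / (16 * (q k0 : ℝ) ^ 2))) := by
    gcongr
  have h6 : (q k0 : ℝ) * (2 * (1 / (16 * (q k0 : ℝ) ^ 2))) = 1 / (8 * q k0) := by
    field_simp
    ring
  rw [h6] at h5
  have h7 : 1 / (8 * (q k0 : ℝ)) < 1 / (4 * q k0) := by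
    apply one_div_lt_one_div_of_lt (by positivity)
    linarith
  linarith

end Pool.Agent.H29.PlanarSeries
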