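import Mathlib

set_option autoImplicit false

open MeasureTheory Set Filter Topology
open scoped ENNReal InnerProductSpace ComplexConjugate

namespace Pool.Agent.H29.PosDefMeas

/-- A real-valued function which is not a.e. measurable for an s-finite measure has two levels
`p < q` and a measurable set `E` of positive measure such that both `{u < p}` and `{q < u}`
meet every measurable subset of `E` of positive measure. -/
lemma exists_split {μ : Measure ℝ} [SFinite μ] {u : ℝ → ℝ} (hu : ¬ AEMeasurable u μ) :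
    ∃ (p q : ℝ) (E : Set ℝ), p < q ∧ MeasurableSet E ∧ μ E ≠ 0 ∧
      ∀ G : Set ℝ, MeasurableSet G → G ⊆ E → μ G ≠ 0 →
        μ (G ∩ {x | u x < p}) ≠ 0 ∧ μ (G ∩ {x | q < u x}) ≠ 0 := by
  classical
  by_contra hcon
  apply hu
  have key : AEMeasurable (fun x => ((u x : ℝ) : EReal)) μ := by
    apply MeasureTheory.aemeasurable_of_exist_almost_disjoint_supersets μ
      (Set.range (fun r : ℚ ↦ ((r : ℝ) : EReal))) (Set.countable_range _) EReal.denseRange_ratCast
    rintro _ ⟨p, rfl⟩ _ ⟨q, rfl⟩ hpq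
    have hpq' : (p : ℝ) < (q : ℝ) := by simpa using hpq
    refine ⟨toMeasurable μ {x | u x < p}, toMeasurable μ {x | (q : ℝ) < u x},
      measurableSet_toMeasurable _ _, measurableSet_toMeasurable _ _, ?_, ?_, ?_⟩
    · intro x hx
      apply subset_toMeasurable
      simpa using hx
    · intro x hx
      apply subset_toMeasurable
      simpa using hx
    · by_contra hne
      apply hcon
      refine ⟨p, q, toMeasurable μ {x | u x < p} ∩ toMeasurable μ {x | (q : ℝ) < u x}, hpq',
        (measurableSet_toMeasurable _ _).inter (measurableSet_toMeasurable _ _), hne, ?_⟩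
      intro G hG hGE hG0
      constructor
      · rw [Set.inter_comm, ← Measure.measure_toMeasurable_inter_of_sFinite hG,
          Set.inter_eq_self_of_subset_right (hGE.trans Set.inter_subset_left)]
        exact hG0
      · rw [Set.inter_comm, ← Measure.measure_toMeasurable_inter_of_sFinite hG,
          Set.inter_eq_self_of_subset_right (hGE.trans Set.inter_subset_right)]
        exact hG0
  have h2 := key.ereal_toReal
  simpa using h2

/-- The Hilbert space argument. -/
lemma hilbert_bound {H : Type*} [NormedAddCommGroup H] [InnerProductSpace ℝ H] [CompleteSpace H]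
    {X : Type*} (v : X → H) (S T : Set X) (hS : S.Nonempty) (hT : T.Nonempty)
    (w : H) (κ : ℝ) (hκ : 0 < κ)
    (hsep : ∀ s ∈ S, ∀ t ∈ T, κ ≤ ⟪v s - v t, w⟫_ℝ)
    (M : ℝ) (hM : ∀ x, ‖v x‖ ≤ M)
    (P : (X → ℝ) → Prop) (hPadd : ∀ g h a b, P g → P h → P (fun x => a * g x + b * h x))
    (δ : ℝ) (hδ : 0 ≤ δ)
    (happ : ∀ s ∈ S, ∀ t ∈ T, ∃ g, P g ∧ ∀ x, |⟪v x, v s - v t⟫_ℝ - g x| ≤ 2 * δ)
    (hP : ∀ g, P g → ∀ ε > 0, ∃ s ∈ S, ∃ t ∈ T, g s - g t < ε) :
    κ ^ 2 ≤ 4 * δ * ‖w‖ ^ 2 := by
  classical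
  set D : Set H := {z | ∃ s ∈ S, ∃ t ∈ T, z = v s - v t} with hD
  set K : Set H := closure (convexHull ℝ D) with hK
  obtain ⟨s0, hs0⟩ := hS
  obtain ⟨t0, ht0⟩ := hT
  have hDne : D.Nonempty := ⟨_, s0, hs0, t0, ht0, rfl⟩
  have hKne : K.Nonempty := (hDne.mono (subset_convexHull ℝ D)).mono subset_closure
  have hKconv : Convex ℝ K := (convex_convexHull ℝ D).closure
  obtain ⟨z, hzK, hz⟩ := exists_norm_eq_iInf_of_complete_convex hKne
    (isClosed_closure.isComplete) hKconv 0
  have hz2 := (norm_eq_iInf_iff_real_inner_le_zero hKconv hzK).1 hz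
  -- `⟪z, x⟫ ≥ ‖z‖^2` on `K`
  have hz3 : ∀ x ∈ K, ‖z‖ ^ 2 ≤ ⟪x, z⟫_ℝ := by
    intro x hx
    have := hz2 x hx
    simp only [zero_sub, inner_neg_left, inner_sub_right] at this
    rw [real_inner_comm, ← real_inner_self_eq_norm_sq]
    linarith
  -- lower bound on `‖z‖`
  have hzw : κ ≤ ⟪z, w⟫_ℝ := by
    have hcl : IsClosed {x : H | κ ≤ ⟪x, w⟫_ℝ} :=
      isClosed_le continuous_const (by fun_prop)
    have hconv : Convex ℝ {x : H | κ ≤ ⟪x, w⟫_ℝ} := by
      intro x hx y hy a b ha hb hab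
      simp only [Set.mem_ofPred_eq, inner_add_left, inner_smul_left] at hx hy ⊢
      simp only [conj_trivial]
      nlinarith
    have hsub : D ⊆ {x : H | κ ≤ ⟪x, w⟫_ℝ} := by
      rintro _ ⟨s, hs, t, ht, rfl⟩
      exact hsep s hs t ht
    exact closure_minimal (convexHull_min hsub hconv) hcl hzK
  have hzw2 : κ ≤ ‖z‖ * ‖w‖ := hzw.trans (real_inner_le_norm z w)
  -- main inequality
  have hmain : ‖z‖ ^ 2 ≤ 4 * δ := by
    apply le_of_forall_pos_le_add
    intro ε hε
    have hM0 : 0 ≤ M := (norm_nonneg _).trans (hM s0)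
    set η : ℝ := ε / (4 * (M + 1)) with hη
    have hηpos : 0 < η := by positivity
    obtain ⟨z', hz'K, hz'⟩ := Metric.mem_closure_iff.1 hzK η hηpos
    -- approximation of `x ↦ ⟪v x, z'⟫`
    have happ' : ∃ g, P g ∧ ∀ x, |⟪v x, z'⟫_ℝ - g x| ≤ 2 * δ := by
      have hconv : Convex ℝ {y : H | ∃ g, P g ∧ ∀ x, |⟪v x, y⟫_ℝ - g x| ≤ 2 * δ} := by
        rintro y ⟨g, hg, hgx⟩ y' ⟨g', hg', hgx'⟩ a b ha hb hab
        refine ⟨fun x => a * g x + b * g' x, hPadd _ _ _ _ hg hg', ?_⟩
        intro x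
        have h1 := hgx x
        have h2 := hgx' x
        rw [abs_le] at h1 h2 ⊢
        simp only [inner_add_right, inner_smul_right]
        constructor <;> nlinarith
      have hsub : D ⊆ {y : H | ∃ g, P g ∧ ∀ x, |⟪v x, y⟫_ℝ - g x| ≤ 2 * δ} := by
        rintro _ ⟨s, hs, t, ht, rfl⟩
        exact happ s hs t ht
      exact convexHull_min hsub hconv hz'K
    obtain ⟨g, hg, hgx⟩ := happ'
    obtain ⟨s, hs, t, ht, hst⟩ := hP g hg (ε / 2) (by positivity)
    have h1 : ‖z‖ ^ 2 ≤ ⟪v s - v t, z⟫_ℝ :=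
      hz3 _ (subset_closure (subset_convexHull ℝ D ⟨s, hs, t, ht, rfl⟩))
    have h2 : ⟪v s - v t, z⟫_ℝ = ⟪v s - v t, z'⟫_ℝ + ⟪v s - v t, z - z'⟫_ℝ := by
      rw [← inner_add_right]; congr 1; abel
    have h3 : ⟪v s - v t, z - z'⟫_ℝ ≤ (2 * M) * η := by
      refine (real_inner_le_norm _ _).trans ?_
      have ha : ‖v s - v t‖ ≤ 2 * M := by
        refine (norm_sub_le _ _).trans ?_
        linarith [hM s, hM t]
      have hb : ‖z - z'‖ ≤ η := by
        rw [← dist_eq_norm]; exact hz'.le
      exact mul_le_mul ha hb (norm_nonneg _) (by positivity)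
    have h4 : (2 * M) * η ≤ ε / 2 := by
      rw [hη]
      have : 2 * M * (ε / (4 * (M + 1))) = (ε / 2) * (M / (M + 1)) := by
        field_simp
        ring
      rw [this]
      have h5 : M / (M + 1) ≤ 1 := by
        rw [div_le_one (by positivity)]; linarith
      nlinarith
    have h6 := hgx s
    have h7 := hgx t
    rw [abs_le] at h6 h7
    have h8 : ⟪v s - v t, z'⟫_ℝ = ⟪v s, z'⟫_ℝ - ⟪v t, z'⟫_ℝ := by
      rw [inner_sub_left]
    linarith [h6.1, h6.2, h7.1, h7.2]
  have hz0 : 0 ≤ ‖z‖ * ‖w‖ := by positivity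
  calc κ ^ 2 ≤ (‖z‖ * ‖w‖) ^ 2 := by
        apply pow_le_pow_left₀ hκ.le hzw2
    _ = ‖z‖ ^ 2 * ‖w‖ ^ 2 := by ring
    _ ≤ 4 * δ * ‖w‖ ^ 2 := by
        apply mul_le_mul_of_nonneg_right hmain (by positivity)


/-- Gram representation of a positive semidefinite difference kernel on a set `X`. -/
lemma exists_gram (X : Set ℝ) (F : ℝ → ℂ)
    (herm : ∀ x ∈ X, ∀ y ∈ X, F (x - y) = conj (F (y - x)))
    (psd : ∀ a : X →₀ ℂ, 0 ≤ (a.sum fun x z => a.sum fun y w =>
      conj z * w * F ((y : ℝ) - (x : ℝ))).re) :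
    ∃ (H : Type) (_ : NormedAddCommGroup H) (_ : InnerProductSpace ℂ H) (_ : CompleteSpace H)
      (v : X → H), ∀ x y, ⟪v x, v y⟫_ℂ = F ((y : ℝ) - (x : ℝ)) := by
  classical
  let c : PreInnerProductSpace.Core ℂ (X →₀ ℂ) :=
    { inner := fun f g => f.sum fun x z => g.sum fun y w => conj z * w * F ((y : ℝ) - (x : ℝ))
      conj_inner_symm := by
        intro f g
        change conj (g.sum fun x z => f.sum fun y w => conj z * w * F ((y : ℝ) - (x : ℝ))) =
          f.sum fun x z => g.sum fun y w => conj z * w * F ((y : ℝ) - (x : ℝ))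
        rw [Finsupp.sum_comm]
        simp only [map_finsuppSum, map_mul, Complex.conj_conj]
        refine Finsupp.sum_congr fun x _ => Finsupp.sum_congr fun y _ => ?_
        rw [herm y y.2 x x.2]
        ring
      re_inner_nonneg := by
        intro f
        exact psd f
      add_left := by
        intro f g h
        rw [Finsupp.sum_add_index'] <;> simp [← Finsupp.sum_add, add_mul]
      smul_left := by
        intro f g r
        rw [Finsupp.sum_smul_index] <;> simp [Finsupp.mul_sum, ← mul_assoc] }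
  let i1 : SeminormedAddCommGroup (X →₀ ℂ) :=
    @InnerProductSpace.Core.toSeminormedAddCommGroup ℂ (X →₀ ℂ) _ _ _ c
  let i2 : InnerProductSpace ℂ (X →₀ ℂ) := InnerProductSpace.ofCore c
  refine ⟨UniformSpace.Completion (X →₀ ℂ), inferInstance, inferInstance, inferInstance,
    fun x => ((Finsupp.single x 1 : X →₀ ℂ) : UniformSpace.Completion (X →₀ ℂ)), ?_⟩
  intro x y
  rw [UniformSpace.Completion.inner_coe]
  change (Finsupp.single x 1).sum (fun x z => (Finsupp.single y 1).sum
    fun y w => conj z * w * F ((y : ℝ) - (x : ℝ))) = _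
  simp


/-- Two sets of full outer measure in a set of positive measure: an a.e. measurable function
takes nearly equal values somewhere on both of them. -/
lemma exists_close {μ : Measure ℝ} {E S T : Set ℝ} (hE : MeasurableSet E) (hμE : μ E ≠ 0)
    (hST : ∀ G : Set ℝ, MeasurableSet G → G ⊆ E → μ G ≠ 0 →
      (G ∩ S).Nonempty ∧ (G ∩ T).Nonempty)
    {g : ℝ → ℝ} (hg : AEMeasurable g μ) {ε : ℝ} (hε : 0 < ε) :
    ∃ s ∈ E ∩ S, ∃ t ∈ E ∩ T, g s - g t < ε := by
  classical
  obtain ⟨g', hg'm, hg'⟩ := hg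
  obtain ⟨N, hNsub, hNm, hN0⟩ := exists_measurable_superset_of_null (ae_iff.1 hg')
  set G : ℤ → Set ℝ := fun k => (E \ N) ∩ g' ⁻¹' (Ico (k * (ε / 2)) ((k + 1) * (ε / 2))) with hG
  have hGm : ∀ k, MeasurableSet (G k) := fun k => (hE.diff hNm).inter (hg'm measurableSet_Ico)
  have hcover : E \ N ⊆ ⋃ k, G k := by
    intro x hx
    refine mem_iUnion.2 ⟨⌊g' x / (ε / 2)⌋, hx, ?_, ?_⟩
    · have := Int.floor_le (g' x / (ε / 2))
      rwa [le_div_iff₀ (by positivity)] at this
    · have := Int.lt_floor_add_one (g' x / (ε / 2))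
      rwa [div_lt_iff₀ (by positivity)] at this
  have hEN : μ (E \ N) ≠ 0 := by
    rw [measure_sdiff_null hN0]; exact hμE
  have : ∃ k, μ (G k) ≠ 0 := by
    by_contra hcon
    push Not at hcon
    exact hEN (measure_mono_null hcover (measure_iUnion_null hcon))
  obtain ⟨k, hk⟩ := this
  obtain ⟨⟨s, hsG, hsS⟩, ⟨t, htG, htT⟩⟩ :=
    hST (G k) (hGm k) (fun x hx => hx.1.1) hk
  refine ⟨s, ⟨hsG.1.1, hsS⟩, t, ⟨htG.1.1, htT⟩, ?_⟩
  have hs' : g s = g' s := by
    by_contra hne
    exact hsG.1.2 (hNsub hne)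
  have ht' : g t = g' t := by
    by_contra hne
    exact htG.1.2 (hNsub hne)
  have h1 := hsG.2.2
  have h2 := htG.2.1
  rw [hs', ht']
  nlinarith

/-- A function which is positive definite on a symmetric neighbourhood `J` of `0`, closed under
the obvious localisation, and which is uniformly close to measurable functions near `0`, is
Lebesgue measurable on `J`. -/
theorem aemeasurable_of_approx (J : Set ℝ) (hJ : MeasurableSet J) (hJn : ∀ x ∈ J, -x ∈ J)
    (hJ0 : ∃ ε > 0, ∀ x : ℝ, |x| < ε → x ∈ J)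
    (F : ℝ → ℂ) (herm : ∀ x ∈ J, F (-x) = conj (F x))
    (psd : ∀ X : Set ℝ, (∀ x ∈ X, ∀ y ∈ X, y - x ∈ J) → ∀ a : X →₀ ℂ,
      0 ≤ (a.sum fun x z => a.sum fun y w => conj z * w * F ((y : ℝ) - (x : ℝ))).re)
    (happ : ∀ δ > 0, ∃ ε > 0, ∃ h : ℝ → ℂ, AEMeasurable h volume ∧
      ∀ x : ℝ, |x| < ε → ‖F x - h x‖ ≤ δ) :
    AEMeasurable F (volume.restrict J) := by
  classical
  -- reduction to real parts
  have key : ∀ c : ℂ, ‖c‖ = 1 → AEMeasurable (fun x => (c * F x).re) (volume.restrict J) := by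
    intro c hc
    by_contra hcon
    obtain ⟨p, q, E, hpq, hE, hμE, hEfull⟩ := exists_split hcon
    obtain ⟨ε0, hε0, hε0J⟩ := hJ0
    have h0J : (0 : ℝ) ∈ J := hε0J 0 (by simpa using hε0)
    have hF0 : 0 ≤ (F 0).re := by
      have h1 := psd {0} (by rintro x rfl y rfl; simpa using h0J) (Finsupp.single ⟨0, rfl⟩ 1)
      simpa using h1
    set κ : ℝ := q - p with hκ
    have hκ0 : 0 < κ := by rw [hκ]; linarith
    set δ : ℝ := κ ^ 2 / (8 * ((F 0).re + 1)) with hδ
    have hδ0 : 0 < δ := by positivity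
    obtain ⟨ε1, hε1, h, hhm, hh⟩ := happ δ hδ0
    set ε : ℝ := min ε0 ε1 with hε
    have hε_pos : 0 < ε := lt_min hε0 hε1
    -- localisation
    set I : ℤ → Set ℝ := fun k => Ico (k * (ε / 2)) ((k + 1) * (ε / 2)) with hI
    have hcover : E ∩ J ⊆ ⋃ k, (E ∩ J ∩ I k) := by
      intro x hx
      refine mem_iUnion.2 ⟨⌊x / (ε / 2)⌋, hx, ?_, ?_⟩
      · have := Int.floor_le (x / (ε / 2))
        rwa [le_div_iff₀ (by positivity)] at this
      · have := Int.lt_floor_add_one (x / (ε / 2))
        rwa [div_lt_iff₀ (by positivity)] at this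
    have hex : ∃ k, volume (E ∩ J ∩ I k) ≠ 0 := by
      by_contra hcon
      push Not at hcon
      rw [Measure.restrict_apply hE] at hμE
      exact hμE (measure_mono_null hcover (measure_iUnion_null hcon))
    obtain ⟨k, hk⟩ := hex
    set E' : Set ℝ := E ∩ J ∩ I k with hE'
    have hE'm : MeasurableSet E' := (hE.inter hJ).inter measurableSet_Ico
    have hclose : ∀ x ∈ E', ∀ y ∈ E', |y - x| < ε := by
      intro x hx y hy
      have h1 := hx.2.1
      have h2 := hx.2.2
      have h3 := hy.2.1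
      have h4 := hy.2.2
      rw [abs_lt]
      constructor <;> nlinarith
    set X : Set ℝ := insert 0 E' with hX
    have hXJ : ∀ x ∈ X, ∀ y ∈ X, y - x ∈ J := by
      rintro x (rfl | hx) y (rfl | hy)
      · simpa using h0J
      · simpa using hy.1.2
      · simpa using hJn _ hx.1.2
      · exact hε0J _ ((hclose x hx y hy).trans_le (min_le_left _ _))
    obtain ⟨H, _, _, _, v, hv⟩ := exists_gram X F (by
      intro x hx y hy
      have := herm (y - x) (hXJ x hx y hy)
      rw [neg_sub] at this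
      rw [this]) (psd X hXJ)
    let _ : InnerProductSpace ℝ H := InnerProductSpace.complexToReal
    -- the two sets
    let emb : E' → X := fun x => ⟨x, Or.inr x.2⟩
    let x0 : X := ⟨0, Or.inl rfl⟩
    have hfull' : ∀ G : Set ℝ, MeasurableSet G → G ⊆ E' → volume G ≠ 0 →
        (G ∩ {x | q < (c * F x).re}).Nonempty ∧ (G ∩ {x | (c * F x).re < p}).Nonempty := by
      intro G hG hGE hG0
      have hGJ : G ∩ J = G := Set.inter_eq_self_of_subset_left (fun x hx => (hGE hx).1.2)
      have h1 := hEfull G hG (fun x hx => (hGE hx).1.1) (by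
        rw [Measure.restrict_apply hG, hGJ]; exact hG0)
      exact ⟨nonempty_of_measure_ne_zero h1.2, nonempty_of_measure_ne_zero h1.1⟩
    set S : Set E' := {x | q < (c * F x).re} with hS
    set T : Set E' := {x | (c * F x).re < p} with hT
    obtain ⟨⟨s0, hs0, hs0'⟩, ⟨t0, ht0, ht0'⟩⟩ := hfull' E' hE'm subset_rfl hk
    have hinner : ∀ x y : X, ⟪v x, v y⟫_ℝ = (F ((y : ℝ) - (x : ℝ))).re := by
      intro x y
      rw [real_inner_eq_re_inner ℂ, hv]
      rfl
    have hnorm : ∀ x : X, ‖v x‖ ^ 2 = (F 0).re := by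
      intro x
      rw [← real_inner_self_eq_norm_sq, hinner, sub_self]
    have hbound := hilbert_bound (H := H) (fun x : E' => v (emb x)) S T ⟨⟨s0, hs0⟩, hs0'⟩
      ⟨⟨t0, ht0⟩, ht0'⟩ (conj c • v x0) κ hκ0 (by
        intro s hs t ht
        have hval : ∀ x : E', ⟪v (emb x), conj c • v x0⟫_ℝ = (c * F x).re := by
          intro x
          rw [real_inner_comm, real_inner_eq_re_inner ℂ, inner_smul_left, hv]
          simp [x0, emb]
        rw [inner_sub_left, hval, hval]
        have h1 : q < (c * F s).re := hs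
        have h2 : (c * F t).re < p := ht
        rw [hκ]; linarith)
      (Real.sqrt (F 0).re) (by
        intro x
        apply Real.le_sqrt_of_sq_le
        exact (hnorm _).le)
      (fun g => ∃ g' : ℝ → ℝ, AEMeasurable g' volume ∧ ∀ x : E', g x = g' x)
      (by
        rintro g g2 a b ⟨g', hg', hgg⟩ ⟨g2', hg2', hgg2⟩
        exact ⟨fun x => a * g' x + b * g2' x, (hg'.const_mul a).add (hg2'.const_mul b),
          fun x => by simp only [hgg, hgg2]⟩)
      δ hδ0.le
      (by
        intro s _ t _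
        refine ⟨fun x => (h ((s : ℝ) - (x : ℝ))).re - (h ((t : ℝ) - (x : ℝ))).re,
          ⟨fun x => (h ((s : ℝ) - x)).re - (h ((t : ℝ) - x)).re, ?_, fun x => rfl⟩, ?_⟩
        · have hm : ∀ a : ℝ, AEMeasurable (fun x => (h (a - x)).re) volume := by
            intro a
            have := hhm.comp_quasiMeasurePreserving
              (Measure.measurePreserving_sub_left volume a).quasiMeasurePreserving
            exact Complex.measurable_re.comp_aemeasurable this
          exact (hm s).sub (hm t)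
        · intro x
          have happx : ∀ a : E', |(F ((a : ℝ) - (x : ℝ))).re - (h ((a : ℝ) - (x : ℝ))).re| ≤ δ := by
            intro a
            have h1 := hh ((a : ℝ) - x) ((hclose x x.2 a a.2).trans_le (min_le_right _ _))
            rw [← Complex.sub_re]
            exact (Complex.abs_re_le_norm _).trans h1
          have h1 := happx s
          have h2 := happx t
          rw [inner_sub_right, hinner, hinner]
          simp only [emb]
          rw [abs_le] at h1 h2 ⊢
          constructor <;> linarith [h1.1, h1.2, h2.1, h2.2])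
      (by
        rintro g ⟨g', hg', hgg⟩ η hη
        obtain ⟨s, ⟨hsE, hs⟩, t, ⟨htE, ht⟩, hst⟩ := exists_close (μ := volume) hE'm hk hfull' hg' hη
        exact ⟨⟨s, hsE⟩, hs, ⟨t, htE⟩, ht, by rw [hgg, hgg]; exact hst⟩)
    have hw : ‖(conj c • v x0 : H)‖ ^ 2 = (F 0).re := by
      rw [norm_smul, RCLike.norm_conj, hc, one_mul, hnorm]
    rw [hw] at hbound
    have : 4 * δ * (F 0).re < κ ^ 2 := by
      rw [hδ]
      have h8 : 4 * (κ ^ 2 / (8 * ((F 0).re + 1))) * (F 0).re
          = (κ ^ 2 / 2) * ((F 0).re / ((F 0).re + 1)) := by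
        field_simp
        ring
      rw [h8]
      have h9 : (F 0).re / ((F 0).re + 1) < 1 := by
        rw [div_lt_one (by positivity)]; linarith
      nlinarith [sq_nonneg κ, pow_pos hκ0 2, div_nonneg hF0 (by positivity : (0:ℝ) ≤ (F 0).re + 1)]
    linarith
  have hre : AEMeasurable (fun x => (F x).re) (volume.restrict J) := by
    simpa using key 1 (by simp)
  have him : AEMeasurable (fun x => (F x).im) (volume.restrict J) := by
    have := key (-Complex.I) (by simp)
    simpa using this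
  have : F = fun x => ((F x).re : ℂ) + ((F x).im : ℂ) * Complex.I := by
    ext x; exact (Complex.re_add_im (F x)).symm
  rw [this]
  exact (Complex.measurable_ofReal.comp_aemeasurable hre).add
    ((Complex.measurable_ofReal.comp_aemeasurable him).mul_const _)

end Pool.Agent.H29.PosDefMeas
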